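import Pool.Agent.Helper89.GP.GoalsB

/-! GP: DCA, decomposition by the place of a third element. -/

namespace Pool.Agent.Helper79.GP

open Finset Pool.Agent.Helper89.GP

theorem dca : DcaStmt := by
  classical
  intro n R u v w huv hwu hwv
  refine ⟨?_, ?_, ?_⟩
  · have h1 : (Pr R fun σ => po σ u < po σ v) =
        Pr R (fun σ => po σ u < po σ v ∧ po σ v < po σ w) +
          Pr R (fun σ => po σ u < po σ v ∧ po σ w < po σ v) := by
      apply Pr_add
      · intro σ _
        have h := po_lt_or (σ := σ) hwv
        constructor
        · intro h2
          rcases h with h | h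
          · exact Or.inr ⟨h2, h⟩
          · exact Or.inl ⟨h2, h⟩
        · rintro (h2 | h2)
          · exact h2.1
          · exact h2.1
      · intro σ _ h2 h3
        omega
    have h2 : Pr R (fun σ => po σ u < po σ v ∧ po σ w < po σ v) =
        Pr R (fun σ => po σ u < po σ w ∧ po σ w < po σ v) +
          Pr R (fun σ => po σ w < po σ u ∧ po σ u < po σ v) := by
      apply Pr_add
      · intro σ _
        have h := po_lt_or (σ := σ) hwu
        omega
      · intro σ _ h2 h3
        omega
    unfold Ms
    rw [h1, h2, add_assoc]
  · unfold bq ra rb
    apply Pr_add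
    · intro σ _
      have h := po_lt_or (σ := σ) hwu
      have h' := po_lt_or (σ := σ) hwv
      omega
    · intro σ _ h2 h3
      omega
  · have h1 : ∑ k ∈ range n, ((k : ℝ) + 1) * bq R u v k =
        Ex R fun σ => if po σ u < po σ v then df σ u v else 0 := by
      have h2 : ∀ k ∈ range n, ((k : ℝ) + 1) * bq R u v k =
          Ex R fun σ => ((k : ℝ) + 1) * (if po σ v = po σ u + (k + 1) then 1 else 0) := by
        intro k _
        rw [Ex_mul]
        unfold bq
        rw [Pr_eq_Ex]
      rw [Finset.sum_congr rfl h2, ← Ex_sum]
      apply Ex_congr
      intro σ _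
      split_ifs with h3
      · have h4 := po_lt_n σ v
        rw [Finset.sum_eq_single (po σ v - po σ u - 1)]
        · rw [if_pos (by omega)]
          unfold df
          have h5 : po σ v = po σ u + ((po σ v - po σ u - 1) + 1) := by omega
          have h6 : (po σ v : ℝ) = po σ u + (((po σ v - po σ u - 1 : ℕ) : ℝ) + 1) := by
            exact_mod_cast h5
          linarith
        · intro k _ hk
          rw [if_neg (by omega)]
          simp
        · intro h5
          exfalso
          apply h5
          rw [Finset.mem_range]
          omega
      · apply Finset.sum_eq_zero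
        intro k _
        rw [if_neg (by omega)]
        simp
    rw [h1]
    unfold ea eb
    rw [← Ex_add, ← Ex_add, ← Ex_add]
    apply Ex_congr
    intro σ _
    have hw := po_lt_or (σ := σ) hwu
    have hw' := po_lt_or (σ := σ) hwv
    have hu := po_lt_or (σ := σ) huv
    unfold df
    split_ifs <;> first | (exfalso; omega) | ring

end Pool.Agent.Helper79.GP
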